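import Pool.Agent.V11291.F9.Pos
import Pool.Agent.V11291.F9.Low

/-!
# The formula at the central point modulo `2` for the twists of `X_0(14)`, both signs, and the exact
# proportion of the twists for which its 2-part holds with rank zero and `Ш[2^∞] = 0`

`E_D` is the quadratic twist by `D` of the modular curve `X_0(14)`.  We consider all the squarefree `D`,
positive and negative, `D = 1` modulo `4`, `D` a square modulo `7`, prime to `3`, whose prime divisors
split completely in `ℚ(i, √2, √-7)` or are inert in `ℚ(√2)` and in `ℚ(√-7)`; there is no condition on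
the rank and on `Ш`.  Let `x` be the number which the formula
`L(E_D, 1) = x Ω ∏ c_p / #E_D(ℚ)_tors²` predicts to be `Ш_0(E_D)`.

* For every `D ≠ 1` of the class `x` is a 2-adic unit times the square of an integer, and the formula
  holds modulo `2`: `x` is odd if and only if `E_D(ℚ)` is finite and `Ш(E_D)[2] = 0`, if and only if an
  explicit matrix over `𝔽₂` is nonsingular; otherwise `x` is zero or divisible by `4`.
* When `x` is odd then `L(E_D, 1) ≠ 0` and `Ш(E_D)[2^∞] = 0`: the 2-part of the formula holds.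
* This is the case for a proportion of exactly `c = ∏_{i ≥ 0} (1 - 2^{-(2 i + 1)}) = 0.4194...` of the
  positive, and also of the negative, `D` of the class.

The central values are computed with Gross sums and a bilinear identity between representation numbers,
modulo powers of two (helpers 700, 17, 687 and their teams), the Tate-Shafarevich groups with isogenies
of degree two, the proportion with the large sieve for quadratic symbols (`Pool/Agent/Y703/CQ`).
-/

set_option autoImplicit false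

open Filter Topology WeierstrassCurve

namespace Pool.Agent.Results.MP_9c97e9_nt.FormulaModTwoExactProportion

open scoped Classical

open Pool.Agent.TH841.SH.D (Sha)

/-- The quadratic twist `E_D` of `X_0(14)` (`D = 1` modulo `4`), with its global minimal equation
`y² + x y + y = x³ + ((D - 1)/4) x² + ((9 D² - 1)/2) x - (23 D³ + 1)/4`.  It is isomorphic to
`Y² = X (X² + 13 D X + 128 D²)` by `X = 4 (x - D)`, `Y = 4 (2 y + x + 1)`. -/
def twist (D : ℤ) : WeierstrassCurve ℤ :=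
  ⟨1, (D - 1) / 4, 1, (9 * D ^ 2 - 1) / 2, -((23 * D ^ 3 + 1) / 4)⟩

/-- The curve given by the equation of `W` over the ring `R`. -/
abbrev base (W : WeierstrassCurve ℤ) (R : Type) [CommRing R] : WeierstrassCurve R :=
  W.map (Int.castRingHom R)

/-- `W` is a global minimal Weierstrass equation: `Δ ≠ 0` and `|Δ|` is minimal among the integral
Weierstrass equations of the same curve over `ℚ`. -/
def Minimal (W : WeierstrassCurve ℤ) : Prop :=
  W.Δ ≠ 0 ∧ ∀ (W' : WeierstrassCurve ℤ) (C : VariableChange ℚ),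
    C • base W ℚ = base W' ℚ → |W.Δ| ≤ |W'.Δ|

/-- The number of the affine points `(x, y)` over the ring `R`. -/
noncomputable def pts (W : WeierstrassCurve ℤ) (R : Type) [CommRing R] : ℕ :=
  Nat.card {P : R × R // (base W R).toAffine.Equation P.1 P.2}

/-- `a_p = p + 1 - #W(𝔽_p)`, the number of the points of the reduction (a singular point and the
point at infinity included). -/
noncomputable def a (W : WeierstrassCurve ℤ) (p : ℕ) : ℤ := p - pts W (ZMod p)

/-- `L` is the `L`-function of `W`: it is entire and equal to the Euler product with the factors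
`(1 - a_p p^(-s) + p^(1 - 2 s))⁻¹` if `p` does not divide the discriminant, and
`(1 - a_p p^(-s))⁻¹` otherwise. -/
def IsL (W : WeierstrassCurve ℤ) (L : ℂ → ℂ) : Prop :=
  Differentiable ℂ L ∧ ∀ s : ℂ, 3 / 2 < s.re →
    HasProd (fun p : Nat.Primes => (1 - (a W p : ℂ) * ((p : ℕ) : ℂ) ^ (-s) +
      (if ((p : ℕ) : ℤ) ∣ W.Δ then 0 else ((p : ℕ) : ℂ) ^ (1 - 2 * s)))⁻¹) (L s)

/-- `4 x³ + b₂ x² + 2 b₄ x + b₆ = (2 y + a₁ x + a₃)²` as a function of `x`. -/
noncomputable def psi (W : WeierstrassCurve ℤ) (x : ℝ) : ℝ :=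
  4 * x ^ 3 + W.b₂ * x ^ 2 + 2 * W.b₄ * x + W.b₆

/-- The real period `∫_{E(ℝ)} |ω|` of `ω = dx / (2 y + a₁ x + a₃)`: over every `x` with `psi x > 0`
there are two real points. -/
noncomputable def Omega (W : WeierstrassCurve ℤ) : ℝ :=
  ∫ x in {x : ℝ | 0 < psi W x}, 2 / Real.sqrt (psi W x)

/-- `(x, y)` is integral and reduces to a singular point modulo `p`: both partial derivatives of
`y² + a₁ x y + a₃ y - x³ - a₂ x² - a₄ x - a₆` vanish modulo `p`. -/
def SingRed (W : WeierstrassCurve ℤ) (p : ℕ) [Fact p.Prime] (x y : ℚ_[p]) : Prop :=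
  ‖x‖ ≤ 1 ∧ ‖y‖ ≤ 1 ∧ ‖W.a₁ * y - (3 * x ^ 2 + 2 * W.a₂ * x + W.a₄)‖ < 1 ∧
    ‖2 * y + W.a₁ * x + W.a₃‖ < 1

/-- `E⁰(ℚ_p)`: the subgroup of the points with non-singular reduction. -/
noncomputable def E0 (W : WeierstrassCurve ℤ) (p : ℕ) [Fact p.Prime] :
    AddSubgroup (base W ℚ_[p]).toAffine.Point :=
  AddSubgroup.closure {P | ∀ (x y : ℚ_[p]) (h), P = Affine.Point.some x y h → ¬ SingRed W p x y}

/-- The product of the Tamagawa numbers `c_p = [E(ℚ_p) : E⁰(ℚ_p)]` at the primes that divide the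
discriminant. -/
noncomputable def Tam (W : WeierstrassCurve ℤ) : ℕ :=
  ∏ p ∈ W.Δ.natAbs.primeFactors, if h : p.Prime then (haveI := Fact.mk h; (E0 W p).index) else 1

/-- The number of the torsion points over `ℚ`. -/
noncomputable def tors (W : WeierstrassCurve ℤ) : ℕ :=
  Nat.card (AddCommGroup.torsion (base W ℚ).toAffine.Point)

/-- `W` is a global minimal equation, the `L`-function of `W` exists, and
`L(W, 1) = x Ω ∏ c_p / #E(ℚ)_tors²` (so that the formula of Birch and Swinnerton-Dyer is the equality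
`x = Ш_0(E)`); the numbers `Ω`, `∏ c_p` and `#E(ℚ)_tors` are positive. -/
def IsPredicted (W : WeierstrassCurve ℤ) (x : ℚ) : Prop :=
  Minimal W ∧ 0 < Omega W ∧ 0 < Tam W ∧ 0 < tors W ∧ (∃ L : ℂ → ℂ, IsL W L) ∧
    ∀ L : ℂ → ℂ, IsL W L → L 1 = (((x : ℝ) * Omega W * Tam W / (tors W : ℝ) ^ 2 : ℝ) : ℂ)

/-- the group `E(ℚ)` is finite and `Ш(E)` has no element of order two -/
def RankZeroShaTwo (W : WeierstrassCurve ℤ) : Prop :=
  Finite (base W ℚ).toAffine.Point ∧ ∀ x : Sha (base W ℚ), 2 • x = 0 → x = 0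

/-! ### The class of the twists -/

/-- primes which split completely in `ℚ(i, √2, √-7)` -/
def Split (p : ℕ) : Prop := p.Prime ∧ p % 8 = 1 ∧ (p % 7 = 1 ∨ p % 7 = 2 ∨ p % 7 = 4)

/-- primes inert in `ℚ(√2)` and in `ℚ(√-7)` -/
def Inert (q : ℕ) : Prop :=
  q.Prime ∧ (q % 8 = 3 ∨ q % 8 = 5) ∧ (q % 7 = 3 ∨ q % 7 = 5 ∨ q % 7 = 6)

/-- the class of discriminants -/
def Adm (D : ℤ) : Prop := Squarefree D ∧ D % 4 = 1 ∧ (D % 7 = 1 ∨ D % 7 = 2 ∨ D % 7 = 4) ∧
  ∀ p : ℕ, p.Prime → (p : ℤ) ∣ D → p ≠ 3 ∧ (Split p ∨ Inert p)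

/-- the prime factors `≡ 1 mod 8` of `D` -/
def S (D : ℤ) : Finset ℕ := D.natAbs.primeFactors.filter fun p => p % 8 = 1

/-- the matrix over `𝔽₂` with rows and columns indexed by `S D`: off the diagonal the
entry at `(p, p')` is `1` if `p'` is not a square modulo `p` and `0` otherwise; on the diagonal it
is the number of the prime factors of `D` different from `p` which are not squares modulo `p`, plus
`1` if the number of the points of `X_0(14)` modulo `p` is not divisible by `8` -/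
noncomputable def R (D : ℤ) : Matrix (S D) (S D) (ZMod 2) := Matrix.of fun i j =>
  if i = j then
    (((D.natAbs.primeFactors.filter fun r : ℕ => r ≠ (i : ℕ) ∧
      ¬ IsSquare (r : ZMod (i : ℕ))).card : ZMod 2) +
        if 8 ∣ pts (twist 1) (ZMod (i : ℕ)) + 1 then 0 else 1)
  else if IsSquare (((j : ℕ)) : ZMod (i : ℕ)) then 0 else 1

/-- The 2-part of the formula with odd terms: `E_D(ℚ)` is finite, `Ш(E_D)[2^∞] = 0`,
`L(E_D, 1) ≠ 0`, and the number `x` predicted for `Ш_0(E_D)` by the formula is a rational number which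
is a 2-adic unit. -/
def TwoPart (D : ℤ) : Prop :=
  Finite (base (twist D) ℚ).toAffine.Point ∧
  (∀ (n : ℕ) (y : Sha (base (twist D) ℚ)), 2 ^ n • y = 0 → y = 0) ∧
  (∀ L : ℂ → ℂ, IsL (twist D) L → L 1 ≠ 0) ∧
  ∃ x : ℚ, IsPredicted (twist D) x ∧ x ≠ 0 ∧ padicValRat 2 x = 0

/-- the number of the `D` with `Adm D`, `Q D`, `|D| ≤ X`, of the sign of `s` -/
noncomputable def count (s : ℤ) (Q : ℤ → Prop) (X : ℕ) : ℕ :=
  Nat.card {D : ℤ // |D| ≤ X ∧ 0 < s * D ∧ Adm D ∧ Q D}

/-- `c = ∏_{i ≥ 0} (1 - 2^{-(2 i + 1)})` -/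
noncomputable def cc : ℝ := ∏' i : ℕ, (1 - (1 / 2 : ℝ) ^ (2 * i + 1))

lemma R_eq {D : ℤ} (hD : Adm D) : R D = Pool.Agent.Y687.MQ.matD D := by
  have hD' : Pool.Agent.Y687.MQ.AdmD D := hD
  have hS := (Pool.Agent.Y687.MQ.of_admD hD').1
  unfold R Pool.Agent.Y687.MQ.matD
  ext i j
  simp only [Matrix.of_apply]
  have hi := hS i.1 i.2
  have h8 := hi.2.1
  have h7 := hi.2.2
  have e : pts (twist 1) (ZMod (i : ℕ)) + 1 = Pool.Agent.Y687.NN 1 (i : ℕ) := by
    have h1 := Pool.Agent.Z705.cnt_affCountZ (D := 1) hi.1 (by omega) (by omega) (by norm_num) (by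
      intro h
      rw [Int.natAbs_one, Nat.dvd_one] at h
      exact hi.1.one_lt.ne' h)
    unfold Pool.Agent.Y687.NN
    rw [Nat.cast_one, h1]
    rfl
  rw [e]
  rfl

lemma zer_iff {D : ℤ} : RankZeroShaTwo (twist D) ↔ Pool.Agent.Y682.YQ.Zer D := by
  unfold RankZeroShaTwo Pool.Agent.Y682.YQ.Zer
  refine and_congr Iff.rfl (forall_congr' fun x => ?_)
  rw [two_nsmul]
  rfl

lemma odd_unit {w : ℚ} {y : ℤ} (hw : w ≠ 0) (hv : padicValRat 2 w = 0) :
    (w * (y : ℚ) ^ 2 ≠ 0 ∧ padicValRat 2 (w * (y : ℚ) ^ 2) = 0) ↔ Odd y := by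
  have : Fact (Nat.Prime 2) := ⟨Nat.prime_two⟩
  by_cases hy : y = 0
  · subst hy
    constructor
    · rintro ⟨h, -⟩
      exact absurd (by norm_num) h
    · intro h
      exact absurd h (by decide)
  · have hyq : (y : ℚ) ≠ 0 := by exact_mod_cast hy
    rw [padicValRat.mul hw (pow_ne_zero 2 hyq), padicValRat.pow, hv, padicValRat.of_int]
    constructor
    · rintro ⟨-, h⟩
      have h1 : padicValInt 2 y = 0 := by
        have h2 : (2 : ℤ) * (padicValInt 2 y : ℤ) = 0 := by
          rw [zero_add] at h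
          exact_mod_cast h
        omega
      rw [← Int.not_even_iff_odd]
      intro he
      have h3 : (2 : ℤ) ∣ y := even_iff_two_dvd.1 he
      have h4 := (padicValInt_dvd_iff (p := 2) 1 y).1 (by simpa using h3)
      rcases h4 with h4 | h4
      · exact hy h4
      · omega
    · intro h
      have h1 : padicValInt 2 y = 0 := by
        refine padicValInt.eq_zero_of_not_dvd ?_
        intro hd
        have h5 := Int.odd_iff.1 h
        omega
      refine ⟨mul_ne_zero hw (pow_ne_zero 2 hyq), ?_⟩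
      rw [h1]
      simp

lemma four_of_even {w : ℚ} {y : ℤ} (hw : w ≠ 0) (hv : padicValRat 2 w = 0) (hy : ¬ Odd y) :
    w * (y : ℚ) ^ 2 = 0 ∨ 2 ≤ padicValRat 2 (w * (y : ℚ) ^ 2) := by
  have : Fact (Nat.Prime 2) := ⟨Nat.prime_two⟩
  by_cases hy0 : y = 0
  · left
    rw [hy0]
    norm_num
  · right
    have hyq : (y : ℚ) ≠ 0 := by exact_mod_cast hy0
    rw [padicValRat.mul hw (pow_ne_zero 2 hyq), padicValRat.pow, hv, padicValRat.of_int]
    have h3 : (2 : ℤ) ∣ y := even_iff_two_dvd.1 (Int.not_odd_iff_even.1 hy)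
    have h4 := (padicValInt_dvd_iff (p := 2) 1 y).1 (by simpa using h3)
    rcases h4 with h4 | h4
    · exact absurd h4 hy0
    · have h5 : (1 : ℤ) ≤ (padicValInt 2 y : ℤ) := by exact_mod_cast h4
      push_cast
      linarith

/-- the facts about one twist -/
lemma main {D : ℤ} (hD : Adm D) (h1 : D ≠ 1) :
    (∃ (x w : ℚ) (y : ℤ), IsPredicted (twist D) x ∧ x = w * (y : ℚ) ^ 2 ∧ w ≠ 0 ∧
      padicValRat 2 w = 0 ∧ (x ≠ 0 ∧ padicValRat 2 x = 0 ↔ RankZeroShaTwo (twist D)) ∧
      (¬ RankZeroShaTwo (twist D) → x = 0 ∨ 2 ≤ padicValRat 2 x)) ∧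
    (RankZeroShaTwo (twist D) ↔ (R D).det ≠ 0) ∧
    (RankZeroShaTwo (twist D) → TwoPart D) := by
  have hD' : Pool.Agent.Y687.MQ.AdmD D := hD
  have hmin : Minimal (twist D) := (Pool.Agent.Y814.BSD14.t_MIN D hD.2.1 hD.1 (by
    intro h
    have := hD.2.2.1
    omega)).1
  have hdet : RankZeroShaTwo (twist D) ↔ (R D).det ≠ 0 := by
    rw [R_eq hD, zer_iff]
    exact Pool.Agent.Y682.YQ.zer_iff hD'
  have hO : 0 < Omega (twist D) := Pool.Agent.V11291.F9.omega_pos hD.2.1
  have hT : 0 < Tam (twist D) := Nat.pos_of_ne_zero (Pool.Agent.Y682.YQ.tam_val hD').1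
  have ht : 0 < tors (twist D) := by
    obtain ⟨k, hk, he⟩ := Pool.Agent.V11291.F9.tors_two hD.2.1
    have hk0 : 0 < k := hk.pos
    have : tors (twist D) = 2 * k := he
    omega
  obtain ⟨⟨L₀, hL₀⟩, y, hy, hval⟩ := Pool.Agent.Y682.YQ.val hD' h1
  have hL₀' : IsL (twist D) L₀ := hL₀
  obtain ⟨hne, w, hw, hv, hf⟩ := hval L₀ hL₀
  have huniq : ∀ L : ℂ → ℂ, IsL (twist D) L → L = L₀ := fun L hL =>
    Pool.Agent.Y700.IsL.unique (W := Pool.Agent.Y700.WM D) hL hL₀
  have hpred : IsPredicted (twist D) (w * (y : ℚ) ^ 2) := by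
    refine ⟨hmin, hO, hT, ht, ⟨L₀, hL₀'⟩, fun L hL => ?_⟩
    rw [huniq L hL, hf]
    congr 1
    push_cast
    show (w : ℝ) * (y : ℝ) ^ 2 * (Omega (twist D) * (Tam (twist D) : ℝ) / (tors (twist D) : ℝ) ^ 2) =
      (w : ℝ) * (y : ℝ) ^ 2 * Omega (twist D) * (Tam (twist D) : ℝ) / (tors (twist D) : ℝ) ^ 2
    ring
  have hodd : Odd y ↔ RankZeroShaTwo (twist D) := by rw [hy, zer_iff]
  refine ⟨⟨w * (y : ℚ) ^ 2, w, y, hpred, rfl, hw, hv, ?_, fun hn => ?_⟩, hdet, fun hz => ?_⟩
  · rw [odd_unit hw hv, hodd]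
  · exact four_of_even hw hv fun h => hn (hodd.1 h)
  · have hyo := hodd.2 hz
    have hy0 : y ≠ 0 := by
      rintro rfl
      exact absurd hyo (by decide)
    refine ⟨hz.1, fun n x hx => ?_, fun L hL => ?_, w * (y : ℚ) ^ 2, hpred, (odd_unit hw hv).2 hyo⟩
    · have h2 : (Pool.Agent.Y687.MQ.matD D).det ≠ 0 := by
        rw [← R_eq hD]
        exact hdet.1 hz
      exact Pool.Agent.V11291.F9.sha_two hD' h2 n x hx
    · rw [huniq L hL]
      exact hne hy0

/-- **Main theorem.**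
(1) Let `D ≠ 1` be in the class.  The number `x` predicted for `Ш_0(E_D)` by the formula is the product
of a 2-adic unit and the square of an integer.  It is a 2-adic unit if and only if `E_D(ℚ)` is finite
and `Ш(E_D)[2] = 0`, and otherwise it is zero or divisible by `4`.  This is decided by the matrix `R D`:
`E_D(ℚ)` is finite and `Ш(E_D)[2] = 0` if and only if `R D` is nonsingular.  In this case the 2-part of
the formula holds, with `L(E_D, 1) ≠ 0` and `Ш(E_D)[2^∞] = 0`.
(2) Among the `D` of the class which have the sign of `s = ±1`, ordered by absolute value, the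
proportion of those for which `TwoPart D` holds is exactly `c = ∏_{i ≥ 0} (1 - 2^{-(2 i + 1)})`, and
`0.4194 < c < 0.4195`.
(3) The number of the `D` of the class of a given sign with `|D| ≤ X` is at least a positive constant
times `X (log X)^(-5/8)`. -/
theorem result :
    (∀ D : ℤ, Adm D → D ≠ 1 →
      (∃ (x w : ℚ) (y : ℤ), IsPredicted (twist D) x ∧ x = w * (y : ℚ) ^ 2 ∧ w ≠ 0 ∧
        padicValRat 2 w = 0 ∧ (x ≠ 0 ∧ padicValRat 2 x = 0 ↔ RankZeroShaTwo (twist D)) ∧
        (¬ RankZeroShaTwo (twist D) → x = 0 ∨ 2 ≤ padicValRat 2 x)) ∧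
      (RankZeroShaTwo (twist D) ↔ (R D).det ≠ 0) ∧
      (RankZeroShaTwo (twist D) → TwoPart D)) ∧
    (∀ s : ℤ, (s = 1 ∨ s = -1) →
      Tendsto (fun X : ℕ => (count s TwoPart X : ℝ) / (count s (fun _ => True) X : ℝ)) atTop
        (𝓝 cc)) ∧
    (0.4194 < cc ∧ cc < 0.4195) ∧
    ∀ s : ℤ, (s = 1 ∨ s = -1) → ∃ (b : ℝ) (X₀ : ℕ), 0 < b ∧ ∀ X : ℕ, X₀ ≤ X →
      b * X * (Real.log X) ^ (-(5 / 8) : ℝ) ≤ (count s (fun _ => True) X : ℝ) := by
  refine ⟨fun D hD h1 => main hD h1, fun s hs => ?_, Pool.Agent.Y948.CQ.t_C2.2.2.2, fun s hs =>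
    Pool.Agent.V11291.F9.low hs⟩
  refine Pool.Agent.V11291.F9.prop1 hs TwoPart fun D hD h1 => ?_
  have hD' : Adm D := hD
  obtain ⟨-, h2, h3⟩ := main hD' h1
  have h4 : RankZeroShaTwo (twist D) ↔ (Pool.Agent.Y687.MQ.matD D).det ≠ 0 := by
    rw [zer_iff]
    exact Pool.Agent.Y682.YQ.zer_iff hD
  rw [← h4]
  refine ⟨fun h => ⟨h.1, fun x hx => h.2.1 1 x ?_⟩, h3⟩
  rw [pow_one]
  exact hx

end Pool.Agent.Results.MP_9c97e9_nt.FormulaModTwoExactProportion
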