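import Pool.Agent.Y687.MQ.Fin
import Pool.Agent.Y687.JQ.Sha
import Pool.Agent.V11291.FK.Int
import Pool.Agent.Results.MP_9c97e9_nt.FormulaModTwoExactProportion

/-!
# The 2-part of the formula at the central point for the twists of `X_0(14)` by products of a fixed
# number of primes from an arbitrary set of primes of positive density

`E_D` is the quadratic twist by `D` of the modular curve `X_0(14)`.  The class `Adm` of the hand-in
`FormulaModTwoExactProportion` of this problem consists of the squarefree `D`, positive or negative,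
`D = 1` modulo `4`, `D` a square modulo `7`, prime to `3`, whose prime divisors split completely in
`ℚ(i, √2, √-7)` or are inert in `ℚ(√2)` and in `ℚ(√-7)`.  Let `x` be the number which the formula
`L(E_D, 1) = x Ω ∏ c_p / #E_D(ℚ)_tors²` predicts to be `Ш_0(E_D)`.

We fix the number `k` of the split prime divisors of `D` and the numbers `a`, `b` of the inert prime
divisors which are `3` and `5` modulo `8`, and an arbitrary set `S` of primes which contains a positive
lower proportion of the primes of each of the kinds that occur (no other condition).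

Theorem.  Let `b` be even and `a + b ≥ 1`.  The number of the `D` of the class, `|D| ≤ X`, with exactly
`k`, `a`, `b` prime divisors of the three kinds, all of them in `S`, has the order of magnitude
`X (log log X)^(k + a + b - 1) / log X`.  The proportion of those for which the 2-part of the formula
holds with `L(E_D, 1) ≠ 0` and `Ш(E_D)[2^∞] = 0` tends to the rational number
`π = ∏_{i < (k + 1) / 2} (1 - 2^{-(2 i + 1)})`, which is `1`, `1/2`, `1/2`, `7/16`, `7/16`, … for
`k = 0, 1, 2, 3, 4, …`; and the proportion of those for which the predicted number `x` is zero or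
divisible by `4`, and `E_D(ℚ)` is infinite or `Ш(E_D)[2] ≠ 0`, tends to `1 - π`.  These two cases exclude
each other and every `D` of the families is in one of them.

The conditions hold, for instance, for the primes in a residue class modulo any number prime to `14`.
-/

set_option autoImplicit false

open Finset Filter Topology

namespace Pool.Agent.Results.MP_9c97e9_nt.FixedNumberOfPrimes

open Pool.Agent.Results.MP_9c97e9_nt.FormulaModTwoExactProportion (twist IsPredicted RankZeroShaTwo
  Split Inert Adm R TwoPart)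

/-- The predicted number `x` is zero or divisible by `4`, and `E_D(ℚ)` is infinite or `Ш(E_D)[2] ≠ 0`. -/
def EvenCase (D : ℤ) : Prop := (∃ x : ℚ, IsPredicted (twist D) x ∧ (x = 0 ∨ 2 ≤ padicValRat 2 x)) ∧
  ¬ RankZeroShaTwo (twist D)

/-- the number of the prime factors of `D` which are `r` modulo `8` -/
def number (r : ℕ) (D : ℤ) : ℕ := (D.natAbs.primeFactors.filter fun p => p % 8 = r).card

/-- the `D` of the class with all the prime factors in `S`, exactly `k` of them split (these are the
prime factors `1` modulo `8`), and exactly `a` and `b` of them inert and `3` and `5` modulo `8` -/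
def Family (S : Set ℕ) (k a b : ℕ) (D : ℤ) : Prop :=
  Adm D ∧ (∀ p : ℕ, p.Prime → (p : ℤ) ∣ D → p ∈ S) ∧ number 1 D = k ∧ number 3 D = a ∧ number 5 D = b

/-- at least a positive proportion of the primes up to `Y` has the property `Q`, for all large `Y` -/
def Dense (Q : ℕ → Prop) : Prop := ∃ (δ : ℝ) (Y₀ : ℕ), 0 < δ ∧ ∀ Y : ℕ, Y₀ ≤ Y →
  δ * (Y / Real.log Y) ≤ (Nat.card {p : ℕ // p ≤ Y ∧ Q p} : ℝ)

/-- the primes of the class in `S` which are `r` modulo `8` -/
def Kind (S : Set ℕ) (r p : ℕ) : Prop := p ∈ S ∧ p ≠ 3 ∧ (Split p ∨ Inert p) ∧ p % 8 = r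

/-- `S` contains a positive lower proportion of the primes of each of the kinds that occur -/
def Rich (S : Set ℕ) (k a b : ℕ) : Prop :=
  (1 ≤ k → Dense (Kind S 1)) ∧ (1 ≤ a → Dense (Kind S 3)) ∧ (1 ≤ b → Dense (Kind S 5))

/-- the number of the integers `D` with `|D| ≤ X` and `Q D` -/
noncomputable def count (Q : ℤ → Prop) (X : ℕ) : ℕ := Nat.card {D : ℤ // |D| ≤ X ∧ Q D}

/-- the proportion `∏_{i < (k + 1) / 2} (1 - 2^{-(2 i + 1)})` of the nonsingular matrices among the
symmetric `k` times `k` matrices over the field with two elements -/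
noncomputable def proportion (k : ℕ) : ℝ :=
  ∏ i ∈ range ((k + 1) / 2), (1 - (1 / 2 : ℝ) ^ (2 * i + 1))

/-- the order of magnitude of the number of the members of the family -/
def Size (S : Set ℕ) (k a b : ℕ) : Prop :=
  ∃ (c C : ℝ) (X₀ : ℕ), 0 < c ∧ 0 < C ∧ ∀ X : ℕ, X₀ ≤ X →
    c * (X * Real.log (Real.log X) ^ (k + a + b - 1) / Real.log X) ≤ (count (Family S k a b) X : ℝ) ∧
    (count (Family S k a b) X : ℝ) ≤
      C * (X * Real.log (Real.log X) ^ (k + a + b - 1) / Real.log X)

/-- the proportion of the members of the family with the property `Q` tends to `t` -/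
def Share (S : Set ℕ) (k a b : ℕ) (Q : ℤ → Prop) (t : ℝ) : Prop :=
  Tendsto (fun X : ℕ => (count (fun D => Family S k a b D ∧ Q D) X : ℝ) /
    (count (Family S k a b) X : ℝ)) atTop (𝓝 t)

open Pool.Agent.V11291.FK (Nf Dn Dc Cp) in
lemma fam_iff (S : Set ℕ) (k a b : ℕ) (D : ℤ) : Family S k a b D ↔ Nf (fun p => p ∈ S) k a b D := by
  unfold Family Nf
  refine ⟨fun ⟨h1, h2, h3⟩ => ⟨h1, fun p hp => h2 p (Nat.prime_of_mem_primeFactors hp)
    (Int.natCast_dvd.2 (Nat.dvd_of_mem_primeFactors hp)), h3⟩, fun ⟨h1, h2, h3⟩ =>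
    ⟨h1, fun p hp hd => h2 p (Nat.mem_primeFactors.2 ⟨hp, Int.natCast_dvd.1 hd,
      Int.natAbs_ne_zero.2 h1.1.ne_zero⟩), h3⟩⟩

open Pool.Agent.V11291.FK (Nf Dn Dc Cp) in
lemma kind_iff (S : Set ℕ) (r p : ℕ) : Kind S r p ↔ (p ∈ S ∧ Cp p ∧ p % 8 = r) := by
  unfold Kind Cp
  refine and_congr_right fun _ => ?_
  rw [← and_assoc]
  refine and_congr_left fun _ => ?_
  unfold Split Inert Pool.Agent.Y703.CQ.Sp Pool.Agent.Y703.CQ.In
  rw [Finset.mem_insert, Finset.mem_singleton]
  constructor
  · rintro ⟨h1, h2 | h2⟩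
    · exact Or.inl h2
    · exact Or.inr ⟨h2.1, h1, h2.2.1, h2.2.2⟩
  · rintro (h | h)
    · refine ⟨?_, Or.inl h⟩
      rintro rfl
      exact absurd h.2.1 (by norm_num)
    · exact ⟨h.2.1, Or.inr ⟨h.1, h.2.2.1, h.2.2.2⟩⟩

open Pool.Agent.V11291.FK (Nf Dn Dc Cp) in
lemma dense_iff (S : Set ℕ) (r : ℕ) :
    Dense (Kind S r) ↔ Dn fun p => p ∈ S ∧ Cp p ∧ p % 8 = r := by
  classical
  unfold Dense Dn
  have h : ∀ (Y : ℕ) (hd : DecidablePred fun p => p ∈ S ∧ Cp p ∧ p % 8 = r),
      Nat.card {p : ℕ // p ≤ Y ∧ Kind S r p} =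
      (@Finset.filter _ (fun p => p ∈ S ∧ Cp p ∧ p % 8 = r) hd (range (Y + 1))).card := by
    intro Y hd
    rw [← Fintype.card_coe, ← Nat.card_eq_fintype_card]
    refine Nat.card_congr (Equiv.subtypeEquivRight fun p => ?_)
    rw [Finset.mem_filter, Finset.mem_range, kind_iff, Nat.lt_succ_iff]
  refine exists_congr fun δ => exists_congr fun Y₀ => and_congr_right fun _ =>
    forall_congr' fun Y => imp_congr_right fun _ => ?_
  rw [h Y]

open Pool.Agent.V11291.FK (Nf Dn Dc Cp) in
lemma rich_iff (S : Set ℕ) (k a b : ℕ) : Rich S k a b ↔ Dc (fun p => p ∈ S) k a b := by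
  unfold Rich Dc
  rw [dense_iff, dense_iff, dense_iff]

lemma ne_one {S : Set ℕ} {k a b : ℕ} {D : ℤ} (hab : 1 ≤ a + b) (h : Family S k a b D) : D ≠ 1 := by
  rintro rfl
  obtain ⟨-, -, -, h3, h5⟩ := h
  unfold number at h3 h5
  rw [Int.natAbs_one, Nat.primeFactors_one, Finset.filter_empty, Finset.card_empty] at h3 h5
  omega

lemma two_iff {D : ℤ} (hD : Adm D) (h1 : D ≠ 1) :
    TwoPart D ↔ (Pool.Agent.Y687.MQ.matD D).det ≠ 0 := by
  obtain ⟨-, h2, h3⟩ := FormulaModTwoExactProportion.main hD h1
  rw [← FormulaModTwoExactProportion.R_eq hD]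
  refine ⟨fun h => h2.1 ⟨h.1, fun x hx => h.2.1 1 x ?_⟩, fun h => h3 (h2.2 h)⟩
  rw [pow_one]
  exact hx

lemma evenCase_iff {D : ℤ} (hD : Adm D) (h1 : D ≠ 1) : EvenCase D ↔ ¬ TwoPart D := by
  obtain ⟨⟨x, w, y, hx, -, -, -, -, h0⟩, h2, h3⟩ := FormulaModTwoExactProportion.main hD h1
  constructor
  · rintro ⟨-, h⟩ ht
    refine h ⟨ht.1, fun y hy => ht.2.1 1 y ?_⟩
    rw [pow_one]
    exact hy
  · intro h
    have h4 : ¬ RankZeroShaTwo (twist D) := fun h5 => h (h3 h5)
    exact ⟨⟨x, hx, h0 h4⟩, h4⟩

lemma fin_lt (Q : ℤ → Prop) (X : ℕ) : Finite {D : ℤ // |D| ≤ X ∧ Q D} := by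
  refine Finite.of_injective (fun D : {D : ℤ // |D| ≤ X ∧ Q D} =>
    (⟨D.1, Finset.mem_Icc.2 (abs_le.1 D.2.1)⟩ : Finset.Icc (-(X : ℤ)) X)) fun D D' h => ?_
  exact Subtype.ext (congrArg (fun z : Finset.Icc (-(X : ℤ)) X => z.1) h)

lemma count_add (P Q : ℤ → Prop) (X : ℕ) :
    count (fun D => P D ∧ Q D) X + count (fun D => P D ∧ ¬ Q D) X = count P X := by
  classical
  unfold count
  have := fin_lt P X
  have := fin_lt (fun D => P D ∧ Q D) X
  have := fin_lt (fun D => P D ∧ ¬ Q D) X
  rw [← Nat.card_sum]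
  refine Nat.card_congr ?_
  refine
    { toFun := fun z => Sum.elim (fun D => ⟨D.1, D.2.1, D.2.2.1⟩) (fun D => ⟨D.1, D.2.1, D.2.2.1⟩) z
      invFun := fun D => if h : Q D.1 then Sum.inl ⟨D.1, D.2.1, D.2.2, h⟩ else
        Sum.inr ⟨D.1, D.2.1, D.2.2, h⟩
      left_inv := fun z => ?_
      right_inv := fun D => ?_ }
  · rcases z with z | z
    · simp only [Sum.elim_inl]
      rw [dif_pos z.2.2.2]
    · simp only [Sum.elim_inr]
      rw [dif_neg z.2.2.2]
  · by_cases h : Q D.1
    · simp only [dif_pos h, Sum.elim_inl]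
    · simp only [dif_neg h, Sum.elim_inr]

/-- **Main theorem.**
(1) Let `b` be even, `a + b ≥ 1`, and let `S` be a set of primes which contains a positive lower
proportion of the primes of each of the kinds that occur.  Then the number of the `D` of the class with
exactly `k`, `a`, `b` prime factors of the three kinds, all in `S`, and `|D| ≤ X` is between two positive
constants times `X (log log X)^(k + a + b - 1) / log X`.  The proportion of those `D` for which the
2-part of the formula holds with `L(E_D, 1) ≠ 0` and `Ш(E_D)[2^∞] = 0` tends to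
`∏_{i < (k + 1) / 2} (1 - 2^{-(2 i + 1)})`; the proportion of those for which the number predicted
for `Ш_0(E_D)` by the formula is zero or divisible by `4`, and `E_D(ℚ)` is infinite or `Ш(E_D)[2] ≠ 0`,
tends to `1 - ∏_{i < (k + 1) / 2} (1 - 2^{-(2 i + 1)})`.
(2) Every member of these families is in exactly one of these two cases, and it is decided by the matrix
`R D`.  The members are positive if `a` is even and negative if `a` is odd; there are none if `b` is odd.
(3) The condition on `S` holds if `S` is the set of the numbers in a residue class `c` modulo `q`, with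
`q` prime to `14` and `c` prime to `q`. -/
theorem result :
    (∀ (S : Set ℕ) (k a b : ℕ), Even b → 1 ≤ a + b → Rich S k a b → Size S k a b ∧
      Share S k a b TwoPart (proportion k) ∧ Share S k a b EvenCase (1 - proportion k)) ∧
    (∀ (S : Set ℕ) (k a b : ℕ) (D : ℤ), 1 ≤ a + b → Family S k a b D →
      (TwoPart D ↔ (R D).det ≠ 0) ∧ (EvenCase D ↔ (R D).det = 0) ∧ (0 < D ↔ Even a) ∧ Even b) ∧
    ∀ q c : ℕ, Nat.Coprime q 14 → Nat.Coprime c q → ∀ k a b : ℕ, Rich {p | p % q = c % q} k a b := by
  classical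
  have e1 : ∀ (S : Set ℕ) (k a b : ℕ) (X : ℕ), count (Family S k a b) X =
      Pool.Agent.V11291.FK.cnt (Pool.Agent.V11291.FK.Nf (fun p => p ∈ S) k a b) X := by
    intro S k a b X
    have : Family S k a b = Pool.Agent.V11291.FK.Nf (fun p => p ∈ S) k a b :=
      funext fun D => propext (fam_iff S k a b D)
    rw [this]
    rfl
  have e2 : ∀ (S : Set ℕ) (k a b : ℕ), 1 ≤ a + b → ∀ X : ℕ,
      count (fun D => Family S k a b D ∧ TwoPart D) X =
      Pool.Agent.V11291.FK.cnt (fun D => Pool.Agent.V11291.FK.Nf (fun p => p ∈ S) k a b D ∧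
        (Pool.Agent.Y687.MQ.matD D).det ≠ 0) X := by
    intro S k a b hab X
    have : (fun D => Family S k a b D ∧ TwoPart D) = fun D =>
        Pool.Agent.V11291.FK.Nf (fun p => p ∈ S) k a b D ∧ (Pool.Agent.Y687.MQ.matD D).det ≠ 0 := by
      funext D
      apply propext
      rw [← fam_iff]
      exact and_congr_right fun h => two_iff h.1 (ne_one hab h)
    rw [this]
    rfl
  refine ⟨fun S k a b hb hab hS => ?_, fun S k a b D hab hD => ?_,
    fun q c hq hc k a b => (rich_iff _ k a b).2 (Pool.Agent.V11291.FK.dc_class hq hc k a b)⟩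
  · have hS' := (rich_iff S k a b).1 hS
    have hsz : Size S k a b := by
      unfold Size
      simp only [e1]
      exact Pool.Agent.V11291.FK.D_size hb hab hS'
    have hsh : Share S k a b TwoPart (proportion k) := by
      unfold Share
      simp only [e1, e2 S k a b hab]
      exact Pool.Agent.V11291.FK.D_law hb hab hS'
    refine ⟨hsz, hsh, ?_⟩
    unfold Share at hsh ⊢
    refine (hsh.const_sub 1).congr' ?_
    obtain ⟨c, C, X₀, hc, -, hsz⟩ := hsz
    filter_upwards [eventually_ge_atTop X₀, eventually_gt_atTop 16] with X hX hX2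
    have hpos : (0 : ℝ) < (count (Family S k a b) X : ℝ) := by
      refine lt_of_lt_of_le ?_ (hsz X hX).1
      have h3 : (3 : ℝ) < X := by exact_mod_cast (by omega : 3 < X)
      have h4 : 1 < Real.log X := by
        rw [Real.lt_log_iff_exp_lt (by linarith)]
        exact lt_trans (lt_trans Real.exp_one_lt_d9 (by norm_num)) h3
      have h5 : 0 < Real.log (Real.log X) := Real.log_pos h4
      have h6 : (0 : ℝ) < X := by linarith
      have h7 : 0 < Real.log X := by linarith
      positivity
    have h8 : (fun D => Family S k a b D ∧ EvenCase D) = fun D => Family S k a b D ∧ ¬ TwoPart D := by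
      funext D
      apply propext
      exact and_congr_right fun h => evenCase_iff h.1 (ne_one hab h)
    rw [h8, ← count_add (Family S k a b) TwoPart X, eq_div_iff, sub_mul, div_mul_cancel₀]
    · push_cast
      ring
    · rw [count_add]
      exact hpos.ne'
    · rw [count_add]
      exact hpos.ne'
  · have hne := ne_one hab hD
    have hti : TwoPart D ↔ (R D).det ≠ 0 := by
      rw [two_iff hD.1 hne, FormulaModTwoExactProportion.R_eq hD.1]
      exact Iff.rfl
    refine ⟨hti, (evenCase_iff hD.1 hne).trans ((not_congr hti).trans not_not), ?_⟩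
    obtain ⟨h1, -, -, h3, h5⟩ := hD
    have h1' : Pool.Agent.Y687.MQ.AdmD D := h1
    have h6 := Pool.Agent.Y703.CQ.sign_iff h1'
    have h7 := (Pool.Agent.Y687.JQ.CL_iff.1 (Pool.Agent.Y687.JQ.of_adm h1').1).2
    unfold number at h3 h5
    refine ⟨?_, ?_⟩
    · rw [h6, ← h3, Nat.even_iff]
    · rw [← h5, Nat.even_iff]
      exact h7

end Pool.Agent.Results.MP_9c97e9_nt.FixedNumberOfPrimes
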