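import Pool.Agent.V1110.SpB
import Pool.Agent.Results.MP_9c97e9_nt.FormulaModTwoExactProportion

/-!
# The formula at the central point for the twists of `X_0(14)` by the terms of sparse sequences

Let `c > 1` be a real number. For all real `α > 0` outside a set of Hausdorff dimension smaller than one, and
for `D_n = ⌊α n ^ c⌋` as well as `D_n = - ⌊α n ^ c⌋`: at least `b N (log N)^(-5/8)` of the `D_n`, `n ≤ N`, are in
the class `Adm` of `FormulaModTwoExactProportion`, and for a proportion of exactly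
`∏_{i ≥ 0} (1 - 2^{-(2 i + 1)}) = 0.4194...` of these the 2-part of the formula of Birch and Swinnerton-Dyer
for the central value holds for the twist `E_D` of `X_0(14)`, `D = D_n`, with `E_D(ℚ)` finite, `Ш(E_D)[2^∞] = 0`
and `L(E_D, 1) ≠ 0`; for the others the number predicted for `Ш_0(E_D)` is zero or divisible by `4`.
-/

set_option autoImplicit false

open Filter Topology

namespace Pool.Agent.Results.MP_9c97e9_nt.SparseSequences

open FormulaModTwoExactProportion (Adm TwoPart IsPredicted RankZeroShaTwo twist cc R)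

/-- the discriminants `s ⌊α n ^ c⌋` -/
noncomputable def term (s : ℤ) (α c : ℝ) (n : ℕ) : ℤ := s * (⌊α * (n : ℝ) ^ c⌋₊ : ℕ)

/-- the number of the `1 ≤ n ≤ N` for which the discriminant `D = s ⌊α n ^ c⌋` is in the class `Adm` and has
the property `Q` -/
noncomputable def count (s : ℤ) (α c : ℝ) (Q : ℤ → Prop) (N : ℕ) : ℕ :=
  Nat.card {n : ℕ // (1 ≤ n ∧ n ≤ N) ∧ Adm (term s α c n) ∧ Q (term s α c n)}

/-- `E_D(ℚ)` is infinite or `Ш(E_D)[2] ≠ 0`, and the number `x` predicted for `Ш_0(E_D)` is zero or divisible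
by `4` (its 2-adic valuation is at least two) -/
def EvenPart (D : ℤ) : Prop :=
  ¬ RankZeroShaTwo (twist D) ∧ ∃ x : ℚ, IsPredicted (twist D) x ∧ (x = 0 ∨ 2 ≤ padicValRat 2 x)

open scoped Classical in
lemma det_iff {D : ℤ} (hD : Adm D) (h1 : D ≠ 1) :
    ¬ EvenPart D ↔ (Pool.Agent.Y687.MQ.matD D).det ≠ 0 := by
  obtain ⟨⟨x, w, y, hx, -, -, -, -, hneg⟩, hdet, -⟩ := FormulaModTwoExactProportion.result.1 D hD h1
  rw [FormulaModTwoExactProportion.R_eq hD] at hdet
  have hdet' : RankZeroShaTwo (twist D) ↔ (Pool.Agent.Y687.MQ.matD D).det ≠ 0 := hdet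
  refine Iff.trans ?_ hdet'
  constructor
  · intro h
    by_contra h2
    exact h ⟨h2, x, hx, hneg h2⟩
  · rintro h ⟨h2, -⟩
    exact h2 h

lemma compl {s : ℤ} (hs : s = 1 ∨ s = -1) (Q : ℤ → Prop) (X : ℕ) :
    (Pool.Agent.V11291.F9.cnt s Q X : ℝ) = Pool.Agent.V11291.F9.cnt s (fun _ => True) X -
      Pool.Agent.V11291.F9.cnt s (fun D => ¬ Q D) X := by
  classical
  rw [Pool.Agent.V11291.F9.cnt_eq hs, Pool.Agent.V11291.F9.cnt_eq hs, Pool.Agent.V11291.F9.cnt_eq hs,
    eq_sub_iff_add_eq, ← Nat.cast_add, Nat.cast_inj]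
  simp only [and_true]
  have h := Finset.card_filter_add_card_filter_not (s := (Finset.Icc (-(X : ℤ)) X).filter fun D =>
    (Pool.Agent.Y687.MQ.AdmD D ∧
      (D.natAbs.primeFactors.filter fun p => p % 8 = 3).card % 2 ∈ Pool.Agent.V11291.F9.KS s)) Q
  rw [Finset.filter_filter, Finset.filter_filter] at h
  convert h

open scoped Classical in
lemma even_lim {s : ℤ} (hs : s = 1 ∨ s = -1) : Tendsto (fun X : ℕ =>
    (Pool.Agent.V11291.F9.cnt s EvenPart X : ℝ) / Pool.Agent.V11291.F9.cnt s (fun _ => True) X) atTop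
      (𝓝 (1 - cc)) := by
  have h1 : Tendsto (fun X : ℕ => (Pool.Agent.V11291.F9.cnt s (fun D => ¬ EvenPart D) X : ℝ) /
      Pool.Agent.V11291.F9.cnt s (fun _ => True) X) atTop (𝓝 cc) :=
    Pool.Agent.V11291.F9.prop1 hs (fun D => ¬ EvenPart D) fun D hD h1 => det_iff hD h1
  have h2 := (tendsto_const_nhds (x := (1 : ℝ))).sub h1
  refine h2.congr' ?_
  filter_upwards [(Pool.Agent.V11291.F9.tot_atTop hs).eventually_gt_atTop 0] with X hX
  rw [compl hs EvenPart X, sub_div, div_self hX.ne']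

/-- **Main theorem.** Let `c > 1`. There is a set `E` of real numbers of Hausdorff dimension smaller than one such
that for all real `α > 0` outside `E` and both signs `s = ± 1`, with `D_n = s ⌊α n ^ c⌋`:
(1) at least `b N (log N)^(-5/8)` of the `n ≤ N` have `D_n` in the class `Adm`, for some `b > 0` and all large `N`;
(2) the proportion of the `n` for which `TwoPart D_n` holds among the `n ≤ N` with `D_n` in the class `Adm` tends to
`cc = ∏_{i ≥ 0} (1 - 2^{-(2 i + 1)})`, `0.4194 < cc < 0.4195`;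
(3) the proportion of those with `EvenPart D_n` tends to `1 - cc`. -/
theorem result (c : ℝ) (hc : 1 < c) :
    ∃ E : Set ℝ, dimH E < 1 ∧ ∀ α : ℝ, 0 < α → α ∉ E → ∀ s : ℤ, (s = 1 ∨ s = -1) →
      (∃ b : ℝ, 0 < b ∧ ∃ N₀ : ℕ, ∀ N : ℕ, N₀ ≤ N →
        b * N * (Real.log N) ^ (-(5 / 8) : ℝ) ≤ count s α c (fun _ => True) N) ∧
      Tendsto (fun N : ℕ => (count s α c TwoPart N : ℝ) / count s α c (fun _ => True) N) atTop (𝓝 cc) ∧
      (0.4194 < cc ∧ cc < 0.4195) ∧
      Tendsto (fun N : ℕ => (count s α c EvenPart N : ℝ) / count s α c (fun _ => True) N) atTop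
        (𝓝 (1 - cc)) := by
  obtain ⟨-, h2, h3, h4⟩ := FormulaModTwoExactProportion.result
  obtain ⟨E, hE, h⟩ := Pool.Agent.V1110.SpA.ratio_int c hc (ι := Fin 2)
    (fun k D => Adm D ∧ ![TwoPart, EvenPart] k D) (fun _ D => Adm D ∧ True)
  refine ⟨E, hE, fun α hα hαE s hs => ?_⟩
  obtain ⟨b, X₀, hb, hlow⟩ := h4 s hs
  obtain ⟨h5, b', hb', N₀, h6⟩ := h α hα hαE 0 s hs cc b (5 / 8) hb (by norm_num) ⟨X₀, hlow⟩ (h2 s hs)
  obtain ⟨h7, -⟩ := h α hα hαE 1 s hs (1 - cc) b (5 / 8) hb (by norm_num) ⟨X₀, hlow⟩ (even_lim hs)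
  exact ⟨⟨b', hb', N₀, h6⟩, h5, h3, h7⟩

end Pool.Agent.Results.MP_9c97e9_nt.SparseSequences
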