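import Mathlib
import Pool.Agent.V11291.F9.Pos
import Pool.Agent.V11161.BH.ParC

/-!
# The formula at the central point modulo `2` along clusters of primes with difference vectors in
# Bohr sets

`E_D` is the quadratic twist by `D` of the modular curve `X_0(14)`. Let `M` be ANY member of the class
`Adm` (squarefree, `1` modulo `4`, a square modulo `7`, prime to `3`, all prime divisors split completely
in `ℚ(i, √2, √-7)` or inert in `ℚ(√2)` and in `ℚ(√-7)`), and let `c` be a class modulo `168 |M|`, prime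
to the modulus, of inert primes.

For all `k` and `η > 0` there are `z`, `d`, `C`, `X₀` and `ρ, b > 0`, which depend only on `k` and `η`,
such that for all `M`, all `c` and every `X ≥ X₀` there are frequencies `θ_1, …, θ_d` with the following
property. Let `B` be the Bohr set of all integers `|h| ≤ X` with `|exp (2 π i h θ_j) - 1| ≤ ρ` for all
`j`; it has at least `b X` elements. Put `W = 168 |M| z!`. For at least `(1 - η) |B| ^ k` of the vectors
`(h_1, …, h_k)` in `B ^ k` (the entries being distinct and not zero) and for arbitrarily large `N`, the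
same for all these vectors, there are at least `N / (log N) ^ C` primes `p ≤ N` of the class such that
`p_0 = p` and the `p_i = p + W h_i` are primes of the class and the following holds for all nonempty
subsets `J` of the `k + 1` indices with an even number of elements, and for all nonempty `J` if `c` is
`3` modulo `8` and a square modulo the split primes of `M`. Let `D = M ∏_{i ∈ J} p_i*`, where
`x* = ± x`, `x* = 1` modulo `4`.

* If `E_M(ℚ)` is finite and `Ш(E_M)[2] = 0` then the 2-part of the formula of Birch and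
  Swinnerton-Dyer, with odd terms, holds for `E_D`: `E_D(ℚ)` is finite, `Ш(E_D)[2^∞] = 0`,
  `L(E_D, 1) ≠ 0`, and the number `x` with `L(E_D, 1) = x Ω ∏ c_p / #E_D(ℚ)_tors²` is a 2-adic unit.
* Otherwise `E_D(ℚ)` is infinite or `Ш(E_D)[2] ≠ 0`, and this number `x` is `0` or divisible by `4`.

So the parity of the predicted order of `Ш` is the same at all the vertices `J` of the cube, for almost
all the configurations in the Bohr set, and for every base curve `E_M`.

The formula modulo `2` and the criterion with the matrix `R(D)` over `𝔽₂` are from the starting library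
(`Pool.Agent.Y682`, `Y687`, `V11291.F9`; see `FormulaModTwoExactProportion`). New here: the matrix of
`M ∏ p_i*` is the one of `M` (`Pool.Agent.V11161.BH.det_mul_DD`), and the configurations of the primes
(`Pool.Agent.V11161.BH.bohrAPU`, uniform in the modulus).
-/

set_option autoImplicit false

open Filter WeierstrassCurve

namespace Pool.Agent.Results.MP_9c97e9_nt.TwoPartInBohrSets

open scoped Classical

open Pool.Agent.TH841.SH.D (Sha)

/-- The quadratic twist `E_D` of `X_0(14)` (`D = 1` modulo `4`), with its global minimal equation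
`y² + x y + y = x³ + ((D - 1)/4) x² + ((9 D² - 1)/2) x - (23 D³ + 1)/4`.  It is isomorphic to
`Y² = X (X² + 13 D X + 128 D²)` by `X = 4 (x - D)`, `Y = 4 (2 y + x + 1)`. -/
def twist (D : ℤ) : WeierstrassCurve ℤ :=
  ⟨1, (D - 1) / 4, 1, (9 * D ^ 2 - 1) / 2, -((23 * D ^ 3 + 1) / 4)⟩

/-- The curve given by the equation of `W` over the ring `R`. -/
abbrev base (W : WeierstrassCurve ℤ) (R : Type) [CommRing R] : WeierstrassCurve R :=
  W.map (Int.castRingHom R)

/-- `W` is a global minimal Weierstrass equation: `Δ ≠ 0` and `|Δ|` is minimal among the integral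
Weierstrass equations of the same curve over `ℚ`. -/
def Minimal (W : WeierstrassCurve ℤ) : Prop :=
  W.Δ ≠ 0 ∧ ∀ (W' : WeierstrassCurve ℤ) (C : VariableChange ℚ),
    C • base W ℚ = base W' ℚ → |W.Δ| ≤ |W'.Δ|

/-- The number of the affine points `(x, y)` over the ring `R`. -/
noncomputable def pts (W : WeierstrassCurve ℤ) (R : Type) [CommRing R] : ℕ :=
  Nat.card {P : R × R // (base W R).toAffine.Equation P.1 P.2}

/-- `a_p = p + 1 - #W(𝔽_p)`, the number of the points of the reduction (a singular point and the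
point at infinity included). -/
noncomputable def a (W : WeierstrassCurve ℤ) (p : ℕ) : ℤ := p - pts W (ZMod p)

/-- `L` is the `L`-function of `W`: it is entire and equal to the Euler product with the factors
`(1 - a_p p^(-s) + p^(1 - 2 s))⁻¹` if `p` does not divide the discriminant, and
`(1 - a_p p^(-s))⁻¹` otherwise. -/
def IsL (W : WeierstrassCurve ℤ) (L : ℂ → ℂ) : Prop :=
  Differentiable ℂ L ∧ ∀ s : ℂ, 3 / 2 < s.re →
    HasProd (fun p : Nat.Primes => (1 - (a W p : ℂ) * ((p : ℕ) : ℂ) ^ (-s) +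
      (if ((p : ℕ) : ℤ) ∣ W.Δ then 0 else ((p : ℕ) : ℂ) ^ (1 - 2 * s)))⁻¹) (L s)

/-- `4 x³ + b₂ x² + 2 b₄ x + b₆ = (2 y + a₁ x + a₃)²` as a function of `x`. -/
noncomputable def psi (W : WeierstrassCurve ℤ) (x : ℝ) : ℝ :=
  4 * x ^ 3 + W.b₂ * x ^ 2 + 2 * W.b₄ * x + W.b₆

/-- The real period `∫_{E(ℝ)} |ω|` of `ω = dx / (2 y + a₁ x + a₃)`: over every `x` with `psi x > 0`
there are two real points. -/
noncomputable def Omega (W : WeierstrassCurve ℤ) : ℝ :=
  ∫ x in {x : ℝ | 0 < psi W x}, 2 / Real.sqrt (psi W x)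

/-- `(x, y)` is integral and reduces to a singular point modulo `p`: both partial derivatives of
`y² + a₁ x y + a₃ y - x³ - a₂ x² - a₄ x - a₆` vanish modulo `p`. -/
def SingRed (W : WeierstrassCurve ℤ) (p : ℕ) [Fact p.Prime] (x y : ℚ_[p]) : Prop :=
  ‖x‖ ≤ 1 ∧ ‖y‖ ≤ 1 ∧ ‖W.a₁ * y - (3 * x ^ 2 + 2 * W.a₂ * x + W.a₄)‖ < 1 ∧
    ‖2 * y + W.a₁ * x + W.a₃‖ < 1

/-- `E⁰(ℚ_p)`: the subgroup of the points with non-singular reduction. -/
noncomputable def E0 (W : WeierstrassCurve ℤ) (p : ℕ) [Fact p.Prime] :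
    AddSubgroup (base W ℚ_[p]).toAffine.Point :=
  AddSubgroup.closure {P | ∀ (x y : ℚ_[p]) (h), P = Affine.Point.some x y h → ¬ SingRed W p x y}

/-- The product of the Tamagawa numbers `c_p = [E(ℚ_p) : E⁰(ℚ_p)]` at the primes that divide the
discriminant. -/
noncomputable def Tam (W : WeierstrassCurve ℤ) : ℕ :=
  ∏ p ∈ W.Δ.natAbs.primeFactors, if h : p.Prime then (haveI := Fact.mk h; (E0 W p).index) else 1

/-- The number of the torsion points over `ℚ`. -/
noncomputable def tors (W : WeierstrassCurve ℤ) : ℕ :=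
  Nat.card (AddCommGroup.torsion (base W ℚ).toAffine.Point)

/-- `W` is a global minimal equation, the `L`-function of `W` exists, and
`L(W, 1) = x Ω ∏ c_p / #E(ℚ)_tors²` (so that the formula of Birch and Swinnerton-Dyer is the equality
`x = Ш_0(E)`); the numbers `Ω`, `∏ c_p` and `#E(ℚ)_tors` are positive. -/
def IsPredicted (W : WeierstrassCurve ℤ) (x : ℚ) : Prop :=
  Minimal W ∧ 0 < Omega W ∧ 0 < Tam W ∧ 0 < tors W ∧ (∃ L : ℂ → ℂ, IsL W L) ∧
    ∀ L : ℂ → ℂ, IsL W L → L 1 = (((x : ℝ) * Omega W * Tam W / (tors W : ℝ) ^ 2 : ℝ) : ℂ)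

/-- the group `E(ℚ)` is finite and `Ш(E)` has no element of order two -/
def RankZeroShaTwo (W : WeierstrassCurve ℤ) : Prop :=
  Finite (base W ℚ).toAffine.Point ∧ ∀ x : Sha (base W ℚ), 2 • x = 0 → x = 0

/-! ### The class of the twists -/

/-- primes which split completely in `ℚ(i, √2, √-7)` -/
def Split (p : ℕ) : Prop := p.Prime ∧ p % 8 = 1 ∧ (p % 7 = 1 ∨ p % 7 = 2 ∨ p % 7 = 4)

/-- primes inert in `ℚ(√2)` and in `ℚ(√-7)` -/
def Inert (q : ℕ) : Prop :=
  q.Prime ∧ (q % 8 = 3 ∨ q % 8 = 5) ∧ (q % 7 = 3 ∨ q % 7 = 5 ∨ q % 7 = 6)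

/-- the class of discriminants -/
def Adm (D : ℤ) : Prop := Squarefree D ∧ D % 4 = 1 ∧ (D % 7 = 1 ∨ D % 7 = 2 ∨ D % 7 = 4) ∧
  ∀ p : ℕ, p.Prime → (p : ℤ) ∣ D → p ≠ 3 ∧ (Split p ∨ Inert p)

/-- The 2-part of the formula with odd terms: `E_D(ℚ)` is finite, `Ш(E_D)[2^∞] = 0`,
`L(E_D, 1) ≠ 0`, and the number `x` predicted for `Ш_0(E_D)` by the formula is a rational number which
is a 2-adic unit. -/
def TwoPart (D : ℤ) : Prop :=
  Finite (base (twist D) ℚ).toAffine.Point ∧
  (∀ (n : ℕ) (y : Sha (base (twist D) ℚ)), 2 ^ n • y = 0 → y = 0) ∧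
  (∀ L : ℂ → ℂ, IsL (twist D) L → L 1 ≠ 0) ∧
  ∃ x : ℚ, IsPredicted (twist D) x ∧ x ≠ 0 ∧ padicValRat 2 x = 0

/-- `x* = ± x`, congruent to `1` modulo `4` for odd `x` -/
def star (x : ℤ) : ℤ := if x % 4 = 1 then x else -x

/-- the numbers `p, p + W h_1, …, p + W h_k` -/
def members {k : ℕ} (W : ℕ) (h : Fin k → ℤ) (p : ℕ) : Fin (k + 1) → ℤ :=
  Fin.cons (p : ℤ) fun i => (p : ℤ) + W * h i

/-- the subsets `J` which are considered: nonempty, and with an even number of elements if `c` is not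
`3` modulo `8` or not a square modulo one of the prime divisors `l = 1` modulo `8` of `M` -/
def Allowed {k : ℕ} (M : ℤ) (c : ℕ) (J : Finset (Fin (k + 1))) : Prop :=
  J.Nonempty ∧ (Even J.card ∨ (c % 8 = 3 ∧
    ∀ l : ℕ, l.Prime → (l : ℤ) ∣ M → l % 8 = 1 → IsSquare (c : ZMod l)))

/-- the statement on the twists by `M` and by `D`: if `E_M(ℚ)` is finite and `Ш(E_M)[2] = 0` then the
2-part of the formula holds for `E_D`, with odd terms; otherwise `E_D(ℚ)` is infinite or
`Ш(E_D)[2] ≠ 0` and the number predicted for `Ш_0(E_D)` is zero or divisible by `4` -/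
def Follows (M D : ℤ) : Prop :=
  (RankZeroShaTwo (twist M) → TwoPart D) ∧
  (¬ RankZeroShaTwo (twist M) → ¬ RankZeroShaTwo (twist D) ∧
    ∃ x : ℚ, IsPredicted (twist D) x ∧ (x = 0 ∨ 2 ≤ padicValRat 2 x))

/-- the primes `p ≤ N` of the class of `c` modulo `168 |M|` for which all the `p + W h_i` are primes of
the class and the statement holds for the twists by `M` and by `M` times the product of the `x*`, `x`
running through the members of the cluster with indices in `J`, for all allowed `J` -/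
def goodPrimes {k : ℕ} (M : ℤ) (c W : ℕ) (h : Fin k → ℤ) (N : ℕ) : Set ℕ :=
  {p : ℕ | p ≤ N ∧ p.Prime ∧ p % (168 * M.natAbs) = c % (168 * M.natAbs) ∧
    (∀ i, ∃ q : ℕ, q.Prime ∧ q % (168 * M.natAbs) = c % (168 * M.natAbs) ∧
      (q : ℤ) = p + W * h i) ∧
    ∀ J : Finset (Fin (k + 1)), Allowed M c J → Follows M (M * ∏ i ∈ J, star (members W h p i))}

/-- the Bohr set of the frequencies `θ_j`, of radius `ρ` and width `X` -/
def bohrSet {d : ℕ} (θ : Fin d → ℝ) (ρ : ℝ) (X : ℕ) : Set ℤ :=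
  {h : ℤ | |h| ≤ X ∧ ∀ j, ‖Complex.exp (2 * Real.pi * Complex.I * (h * θ j)) - 1‖ ≤ ρ}

/-- the prime factors `≡ 1 mod 8` of `D` -/
def S (D : ℤ) : Finset ℕ := D.natAbs.primeFactors.filter fun p => p % 8 = 1

/-- the matrix over `𝔽₂` with rows and columns indexed by `S D`: off the diagonal the
entry at `(p, p')` is `1` if `p'` is not a square modulo `p` and `0` otherwise; on the diagonal it
is the number of the prime factors of `D` different from `p` which are not squares modulo `p`, plus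
`1` if the number of the points of `X_0(14)` modulo `p` is not divisible by `8` -/
noncomputable def R (D : ℤ) : Matrix (S D) (S D) (ZMod 2) := Matrix.of fun i j =>
  if i = j then
    (((D.natAbs.primeFactors.filter fun r : ℕ => r ≠ (i : ℕ) ∧
      ¬ IsSquare (r : ZMod (i : ℕ))).card : ZMod 2) +
        if 8 ∣ pts (twist 1) (ZMod (i : ℕ)) + 1 then 0 else 1)
  else if IsSquare (((j : ℕ)) : ZMod (i : ℕ)) then 0 else 1

lemma R_eq {D : ℤ} (hD : Adm D) : R D = Pool.Agent.Y687.MQ.matD D := by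
  have hD' : Pool.Agent.Y687.MQ.AdmD D := hD
  have hS := (Pool.Agent.Y687.MQ.of_admD hD').1
  unfold R Pool.Agent.Y687.MQ.matD
  ext i j
  simp only [Matrix.of_apply]
  have hi := hS i.1 i.2
  have h8 := hi.2.1
  have h7 := hi.2.2
  have e : pts (twist 1) (ZMod (i : ℕ)) + 1 = Pool.Agent.Y687.NN 1 (i : ℕ) := by
    have h1 := Pool.Agent.Z705.cnt_affCountZ (D := 1) hi.1 (by omega) (by omega) (by norm_num) (by
      intro h
      rw [Int.natAbs_one, Nat.dvd_one] at h
      exact hi.1.one_lt.ne' h)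
    unfold Pool.Agent.Y687.NN
    rw [Nat.cast_one, h1]
    rfl
  rw [e]
  rfl

lemma zer_iff {D : ℤ} : RankZeroShaTwo (twist D) ↔ Pool.Agent.Y682.YQ.Zer D := by
  unfold RankZeroShaTwo Pool.Agent.Y682.YQ.Zer
  refine and_congr Iff.rfl (forall_congr' fun x => ?_)
  rw [two_nsmul]
  rfl

lemma odd_unit {w : ℚ} {y : ℤ} (hw : w ≠ 0) (hv : padicValRat 2 w = 0) :
    (w * (y : ℚ) ^ 2 ≠ 0 ∧ padicValRat 2 (w * (y : ℚ) ^ 2) = 0) ↔ Odd y := by
  have : Fact (Nat.Prime 2) := ⟨Nat.prime_two⟩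
  by_cases hy : y = 0
  · subst hy
    constructor
    · rintro ⟨h, -⟩
      exact absurd (by norm_num) h
    · intro h
      exact absurd h (by decide)
  · have hyq : (y : ℚ) ≠ 0 := by exact_mod_cast hy
    rw [padicValRat.mul hw (pow_ne_zero 2 hyq), padicValRat.pow, hv, padicValRat.of_int]
    constructor
    · rintro ⟨-, h⟩
      have h1 : padicValInt 2 y = 0 := by
        have h2 : (2 : ℤ) * (padicValInt 2 y : ℤ) = 0 := by
          rw [zero_add] at h
          exact_mod_cast h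
        omega
      rw [← Int.not_even_iff_odd]
      intro he
      have h3 : (2 : ℤ) ∣ y := even_iff_two_dvd.1 he
      have h4 := (padicValInt_dvd_iff (p := 2) 1 y).1 (by simpa using h3)
      rcases h4 with h4 | h4
      · exact hy h4
      · omega
    · intro h
      have h1 : padicValInt 2 y = 0 := by
        refine padicValInt.eq_zero_of_not_dvd ?_
        intro hd
        have h5 := Int.odd_iff.1 h
        omega
      refine ⟨mul_ne_zero hw (pow_ne_zero 2 hyq), ?_⟩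
      rw [h1]
      simp

lemma four_of_even {w : ℚ} {y : ℤ} (hw : w ≠ 0) (hv : padicValRat 2 w = 0) (hy : ¬ Odd y) :
    w * (y : ℚ) ^ 2 = 0 ∨ 2 ≤ padicValRat 2 (w * (y : ℚ) ^ 2) := by
  have : Fact (Nat.Prime 2) := ⟨Nat.prime_two⟩
  by_cases hy0 : y = 0
  · left
    rw [hy0]
    norm_num
  · right
    have hyq : (y : ℚ) ≠ 0 := by exact_mod_cast hy0
    rw [padicValRat.mul hw (pow_ne_zero 2 hyq), padicValRat.pow, hv, padicValRat.of_int]
    have h3 : (2 : ℤ) ∣ y := even_iff_two_dvd.1 (Int.not_odd_iff_even.1 hy)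
    have h4 := (padicValInt_dvd_iff (p := 2) 1 y).1 (by simpa using h3)
    rcases h4 with h4 | h4
    · exact absurd h4 hy0
    · have h5 : (1 : ℤ) ≤ (padicValInt 2 y : ℤ) := by exact_mod_cast h4
      push_cast
      linarith

/-- the facts about one twist -/
lemma main {D : ℤ} (hD : Adm D) (h1 : D ≠ 1) :
    (∃ (x w : ℚ) (y : ℤ), IsPredicted (twist D) x ∧ x = w * (y : ℚ) ^ 2 ∧ w ≠ 0 ∧
      padicValRat 2 w = 0 ∧ (x ≠ 0 ∧ padicValRat 2 x = 0 ↔ RankZeroShaTwo (twist D)) ∧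
      (¬ RankZeroShaTwo (twist D) → x = 0 ∨ 2 ≤ padicValRat 2 x)) ∧
    (RankZeroShaTwo (twist D) ↔ (R D).det ≠ 0) ∧
    (RankZeroShaTwo (twist D) → TwoPart D) := by
  have hD' : Pool.Agent.Y687.MQ.AdmD D := hD
  have hmin : Minimal (twist D) := (Pool.Agent.Y814.BSD14.t_MIN D hD.2.1 hD.1 (by
    intro h
    have := hD.2.2.1
    omega)).1
  have hdet : RankZeroShaTwo (twist D) ↔ (R D).det ≠ 0 := by
    rw [R_eq hD, zer_iff]
    exact Pool.Agent.Y682.YQ.zer_iff hD'
  have hO : 0 < Omega (twist D) := Pool.Agent.V11291.F9.omega_pos hD.2.1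
  have hT : 0 < Tam (twist D) := Nat.pos_of_ne_zero (Pool.Agent.Y682.YQ.tam_val hD').1
  have ht : 0 < tors (twist D) := by
    obtain ⟨k, hk, he⟩ := Pool.Agent.V11291.F9.tors_two hD.2.1
    have hk0 : 0 < k := hk.pos
    have : tors (twist D) = 2 * k := he
    omega
  obtain ⟨⟨L₀, hL₀⟩, y, hy, hval⟩ := Pool.Agent.Y682.YQ.val hD' h1
  have hL₀' : IsL (twist D) L₀ := hL₀
  obtain ⟨hne, w, hw, hv, hf⟩ := hval L₀ hL₀
  have huniq : ∀ L : ℂ → ℂ, IsL (twist D) L → L = L₀ := fun L hL =>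
    Pool.Agent.Y700.IsL.unique (W := Pool.Agent.Y700.WM D) hL hL₀
  have hpred : IsPredicted (twist D) (w * (y : ℚ) ^ 2) := by
    refine ⟨hmin, hO, hT, ht, ⟨L₀, hL₀'⟩, fun L hL => ?_⟩
    rw [huniq L hL, hf]
    congr 1
    push_cast
    show (w : ℝ) * (y : ℝ) ^ 2 * (Omega (twist D) * (Tam (twist D) : ℝ) / (tors (twist D) : ℝ) ^ 2) =
      (w : ℝ) * (y : ℝ) ^ 2 * Omega (twist D) * (Tam (twist D) : ℝ) / (tors (twist D) : ℝ) ^ 2
    ring
  have hodd : Odd y ↔ RankZeroShaTwo (twist D) := by rw [hy, zer_iff]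
  refine ⟨⟨w * (y : ℚ) ^ 2, w, y, hpred, rfl, hw, hv, ?_, fun hn => ?_⟩, hdet, fun hz => ?_⟩
  · rw [odd_unit hw hv, hodd]
  · exact four_of_even hw hv fun h => hn (hodd.1 h)
  · have hyo := hodd.2 hz
    have hy0 : y ≠ 0 := by
      rintro rfl
      exact absurd hyo (by decide)
    refine ⟨hz.1, fun n x hx => ?_, fun L hL => ?_, w * (y : ℚ) ^ 2, hpred, (odd_unit hw hv).2 hyo⟩
    · have h2 : (Pool.Agent.Y687.MQ.matD D).det ≠ 0 := by
        rw [← R_eq hD]
        exact hdet.1 hz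
      exact Pool.Agent.V11291.F9.sha_two hD' h2 n x hx
    · rw [huniq L hL]
      exact hne hy0

lemma det_inst {n : Type} [Fintype n] (d₁ d₂ : DecidableEq n) (A : Matrix n n (ZMod 2)) :
    @Matrix.det n d₁ _ (ZMod 2) _ A = @Matrix.det n d₂ _ (ZMod 2) _ A := by
  rw [Subsingleton.elim d₁ d₂]

/-- the determinant of `R D` in terms of the entries -/
lemma det_R (D : ℤ) : (R D).det = (Matrix.of fun i j : Pool.Agent.V11161.BH.spl D =>
    Pool.Agent.V11161.BH.ent (fun i => if 8 ∣ pts (twist 1) (ZMod i) + 1 then 0 else 1) D i j).det := by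
  have e : R D = (Matrix.of fun i j : Pool.Agent.V11161.BH.spl D =>
    Pool.Agent.V11161.BH.ent (fun i => if 8 ∣ pts (twist 1) (ZMod i) + 1 then 0 else 1) D i j) := by
    ext i j
    unfold R Pool.Agent.V11161.BH.ent
    simp only [Matrix.of_apply]
    by_cases hij : i = j
    · rw [if_pos hij, if_pos (congrArg Subtype.val hij)]
    · rw [if_neg hij, if_neg (fun h => hij (Subtype.ext h))]
  rw [e]
  exact det_inst _ _ _

lemma follows {M D : ℤ} (hM : Adm M) (hD : Adm D) (h1 : D ≠ 1) (hdet : (R D).det = (R M).det) :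
    Follows M D := by
  obtain ⟨⟨x, w, y, hx, -, -, -, -, hx2⟩, hd, ht⟩ := main hD h1
  have hM' : RankZeroShaTwo (twist M) ↔ (R M).det ≠ 0 := by
    rw [R_eq hM, zer_iff]
    exact Pool.Agent.Y682.YQ.zer_iff hM
  have hiff : RankZeroShaTwo (twist D) ↔ RankZeroShaTwo (twist M) := by
    rw [hd, hM', hdet]
  refine ⟨fun h => ht (hiff.2 h), fun h => ?_⟩
  have h' : ¬ RankZeroShaTwo (twist D) := fun h2 => h (hiff.1 h2)
  exact ⟨h', x, hx, hx2 h'⟩

open Pool.Agent.V11161.BH in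
theorem classPrimes_sub {k : ℕ} {M : ℤ} (hM : Adm M) {c W : ℕ}
    (hcop : c.Coprime (168 * M.natAbs)) (hc8 : c % 8 = 3 ∨ c % 8 = 5)
    (hc7 : c % 7 = 3 ∨ c % 7 = 5 ∨ c % 7 = 6) {h : Fin k → ℤ} (hh0 : ∀ i, h i ≠ 0)
    (hinj : Function.Injective h) (hW : 0 < W) (N : ℕ) :
    classPrimes (168 * M.natAbs) c W h N ⊆ goodPrimes M c W h N := by
  intro p hp
  refine ⟨hp.1, hp.2.1, hp.2.2.1, hp.2.2.2, fun J hJ => ?_⟩
  obtain ⟨g1, g2, g3⟩ := cluster_par hM hcop hc8 hc7 hh0 hinj hW hp hJ.1 hJ.2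
    (fun i => if 8 ∣ pts (twist 1) (ZMod i) + 1 then 0 else 1)
  refine follows hM g1 g2 ?_
  rw [det_R, det_R]
  exact g3

/-- **Main theorem.** The parity of the predicted order of `Ш` is the same for all the twists by
`M ∏_{i ∈ J} p_i*`, for almost all the configurations of the primes in a Bohr set. -/
theorem result (k : ℕ) (η : ℝ) (hη : 0 < η) :
    ∃ (z d C X₀ : ℕ) (ρ b : ℝ), 0 < ρ ∧ 0 < b ∧
      ∀ M : ℤ, Adm M → ∀ c : ℕ, Nat.Coprime c (168 * M.natAbs) → (c % 8 = 3 ∨ c % 8 = 5) →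
        (c % 7 = 3 ∨ c % 7 = 5 ∨ c % 7 = 6) → ∀ X : ℕ, X₀ ≤ X →
        ∃ (θ : Fin d → ℝ) (H : Finset (Fin k → ℤ)),
          b * X ≤ ((bohrSet θ ρ X).ncard : ℝ) ∧
          (∀ h ∈ H, (∀ i, h i ∈ bohrSet θ ρ X ∧ h i ≠ 0) ∧ Function.Injective h) ∧
          (1 - η) * ((bohrSet θ ρ X).ncard : ℝ) ^ k ≤ (H.card : ℝ) ∧
          ∃ᶠ N : ℕ in atTop, ∀ h ∈ H, (N : ℝ) / (Real.log N) ^ C ≤
            ((goodPrimes M c (168 * M.natAbs * z.factorial) h N).ncard : ℝ) := by
  obtain ⟨z, d, C, X₀, ρ, b, hρ, hb, hS⟩ := Pool.Agent.V11161.BH.bohrAPU k η hη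
  refine ⟨z, d, C, X₀, ρ, b, hρ, hb, fun M hM c hc hc8 hc7 X hX => ?_⟩
  have hM0 : 0 < M.natAbs := Int.natAbs_pos.2 hM.1.ne_zero
  obtain ⟨θ, H, h1, h2, h3, h4⟩ := hS (168 * M.natAbs) (by omega) c hc X hX
  refine ⟨θ, H, h1, h2, h3, h4.mono fun N hN h hh => (hN h hh).trans ?_⟩
  rw [Nat.cast_le]
  refine Set.ncard_le_ncard (classPrimes_sub hM hc hc8 hc7 (fun i => ((h2 h hh).1 i).2)
    (h2 h hh).2 (Nat.mul_pos (by omega) z.factorial_pos) N) ((Set.finite_Iic N).subset fun p hp => hp.1)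

end Pool.Agent.Results.MP_9c97e9_nt.TwoPartInBohrSets
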